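import Pool.Agent.H958.RL.Stm
import Pool.Agent.H603.RO.Cheb
import Pool.Graph.R_seed8.W657.RD.PBas
import Pool.Graph.R_seed8.W571.RD.Pind

/-!
# Project RL, COMP: few comparable pairs (helper695)
-/

set_option autoImplicit false

namespace Pool.Agent.H695.RL.Comp

open Finset
open scoped Classical
open Pool.Agent.W830.RD (Om gle Pr Rlz S_PBAS S_PIND)
open Pool.Agent.W571.RD.Pind (ind ind_pos ind_neg EX EX_one EX_congr EX_mul EX_mul')
open Pool.Agent.H603.RO.Cheb (EX_sum EX_add)
open Pool.Agent.H958.RO (gle_le)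

noncomputable section

theorem gle_mono {n : ℕ} {E F : Finset (Fin n × Fin n)} (h : E ⊆ F) {x y : Fin n}
    (hg : gle E x y) : gle F x y :=
  Relation.ReflTransGen.mono (fun _ _ hab => h hab) _ _ hg

/-- the edges with upper endpoint at most `w` -/
def lowE {n : ℕ} (w : Fin n) : Finset (Fin n × Fin n) := univ.filter (fun e => e.2 ≤ w)

theorem gle_low {n : ℕ} {E : Finset (Fin n × Fin n)} (hE : E ⊆ Om n) {x w : Fin n} :
    gle E x w ↔ gle (E ∩ lowE w) x w := by
  constructor
  · intro h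
    have key : ∀ v, gle E x v → v ≤ w → gle (E ∩ lowE w) x v := by
      intro v hv
      induction hv with
      | refl => intro _; exact Relation.ReflTransGen.refl
      | tail _ h2 ih =>
        rename_i b c
        intro hc
        have hbc := hE h2
        simp only [Om, mem_filter, mem_univ, true_and] at hbc
        refine Relation.ReflTransGen.tail (ih (hbc.le.trans hc)) ?_
        rw [mem_inter]
        refine ⟨h2, ?_⟩
        simp only [lowE, mem_filter, mem_univ, true_and]
        exact hc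
    exact key w h le_rfl
  · exact fun h => gle_mono inter_subset_left h

/-- one edge more -/
theorem step_pr {n : ℕ} {p : ℝ} (hp : 0 < p) (hp1 : p < 1) (x w y : Fin n) (hwy : w < y) :
    Pr p n (fun E => gle E x w ∧ (w, y) ∈ E) = Pr p n (fun E => gle E x w) * p := by
  have hB := Pool.Agent.W657.RD.PBas.main p n hp hp1
  have hI := (Pool.Agent.W571.RD.Pind.main p n hp hp1).1
  have hmono := hB.2.2.1
  have hd : Disjoint (lowE w) ({(w, y)} : Finset (Fin n × Fin n)) := by
    rw [Finset.disjoint_singleton_right]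
    simp only [lowE, mem_filter, mem_univ, true_and, not_le]
    exact hwy
  have h1 := hI (lowE w) {(w, y)} (fun E => gle E x w) (fun E => (w, y) ∈ E) hd
  have e1 : Pr p n (fun E => gle E x w ∧ (w, y) ∈ E) =
      Pr p n (fun E => gle (E ∩ lowE w) x w ∧ (w, y) ∈ E ∩ {(w, y)}) := by
    apply le_antisymm
    · refine hmono _ _ fun E hE h => ⟨(gle_low hE).1 h.1, ?_⟩
      rw [mem_inter]
      exact ⟨h.2, mem_singleton_self _⟩
    · refine hmono _ _ fun E hE h => ⟨(gle_low hE).2 h.1, (mem_inter.1 h.2).1⟩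
  have e2 : Pr p n (fun E => gle (E ∩ lowE w) x w) = Pr p n (fun E => gle E x w) := by
    apply le_antisymm
    · exact hmono _ _ fun E hE h => (gle_low hE).2 h
    · exact hmono _ _ fun E hE h => (gle_low hE).1 h
  have e3 : Pr p n (fun E => (w, y) ∈ E ∩ {(w, y)}) = p := by
    have h2 := Pool.Agent.H603.RO.Cheb.main1 p n {(w, y)} hp hp1 (by
      rw [singleton_subset_iff]
      simp only [Om, mem_filter, mem_univ, true_and]
      exact hwy)
    rw [card_singleton, pow_one] at h2
    refine Eq.trans ?_ h2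
    apply le_antisymm
    · refine hmono _ _ fun E _ h => ?_
      rw [singleton_subset_iff]
      exact (mem_inter.1 h).1
    · refine hmono _ _ fun E _ h => ?_
      rw [singleton_subset_iff] at h
      rw [mem_inter]
      exact ⟨h, mem_singleton_self _⟩
  rw [e1, h1, e2, e3]

/-- the sum of the probabilities below `m` -/
def SS (p : ℝ) (n : ℕ) (x : Fin n) (m : ℕ) : ℝ :=
  ∑ w ∈ univ.filter (fun w : Fin n => (w : ℕ) < m), Pr p n (fun E => gle E x w)

theorem pr_step {n : ℕ} {p : ℝ} (hp : 0 < p) (hp1 : p < 1) (x y : Fin n) (hxy : x ≠ y) :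
    Pr p n (fun E => gle E x y) ≤ p * SS p n x (y : ℕ) := by
  have hB := Pool.Agent.W657.RD.PBas.main p n hp hp1
  have hmono := hB.2.2.1
  have hun := hB.2.2.2.2.2
  have h1 : Pr p n (fun E => gle E x y) ≤
      Pr p n (fun E => ∃ w ∈ univ.filter (fun w : Fin n => (w : ℕ) < (y : ℕ)),
        gle E x w ∧ (w, y) ∈ E) := by
    refine hmono _ _ fun E hE h => ?_
    rcases Relation.ReflTransGen.cases_tail h with h2 | ⟨w, h2, h3⟩
    · exact absurd h2.symm hxy
    · refine ⟨w, ?_, h2, h3⟩
      have h4 := hE h3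
      simp only [Om, mem_filter, mem_univ, true_and] at h4
      rw [mem_filter]
      exact ⟨mem_univ _, h4⟩
  refine h1.trans ((hun _ _ _).trans ?_)
  unfold SS
  rw [Finset.mul_sum]
  refine Finset.sum_le_sum fun w hw => ?_
  rw [step_pr hp hp1 x w y (mem_filter.1 hw).2, mul_comm]

theorem SS_zero {n : ℕ} {p : ℝ} (hp : 0 < p) (hp1 : p < 1) (x : Fin n) (m : ℕ) (hm : m ≤ (x : ℕ)) :
    SS p n x m ≤ 0 := by
  have hB := Pool.Agent.W657.RD.PBas.main p n hp hp1
  unfold SS
  refine Finset.sum_nonpos fun w hw => ?_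
  have h1 : Pr p n (fun E => gle E x w) ≤ Pr p n (fun _ => ¬ True) := by
    refine hB.2.2.1 _ _ fun E hE h => ?_
    have h2 : (x : ℕ) ≤ (w : ℕ) := gle_le hE h
    have h3 := (mem_filter.1 hw).2
    omega
  rw [hB.2.2.2.2.1, hB.1] at h1
  linarith

theorem SS_le {n : ℕ} {p : ℝ} (hp : 0 < p) (hp1 : p < 1) (x : Fin n) : ∀ m : ℕ, m ≤ n →
    SS p n x m ≤ (1 + p) ^ m := by
  have hB := Pool.Agent.W657.RD.PBas.main p n hp hp1
  intro m
  induction m with
  | zero =>
    intro _
    refine (SS_zero hp hp1 x 0 (Nat.zero_le _)).trans ?_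
    positivity
  | succ m ih =>
    intro hm
    have ih' := ih (by omega)
    have hsplit : SS p n x (m + 1) = Pr p n (fun E => gle E x ⟨m, by omega⟩) + SS p n x m := by
      unfold SS
      have e : univ.filter (fun w : Fin n => (w : ℕ) < m + 1) =
          insert (⟨m, by omega⟩ : Fin n) (univ.filter (fun w : Fin n => (w : ℕ) < m)) := by
        ext w
        simp only [mem_filter, mem_univ, true_and, mem_insert, Fin.ext_iff]
        omega
      rw [e, Finset.sum_insert]
      simp
    rw [hsplit]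
    have hnn : 0 ≤ SS p n x m := by
      unfold SS
      exact Finset.sum_nonneg fun w _ => hB.2.1 _
    by_cases hx : x = ⟨m, by omega⟩
    · have h0 : SS p n x m ≤ 0 := by
        apply SS_zero hp hp1
        rw [hx]
      have h1 : Pr p n (fun E => gle E x ⟨m, by omega⟩) ≤ Pr p n (fun _ => True) :=
        hB.2.2.1 _ _ fun _ _ _ => trivial
      rw [hB.1] at h1
      have h2 : (1 : ℝ) ≤ (1 + p) ^ (m + 1) := one_le_pow₀ (by linarith)
      linarith
    · have h1 := pr_step hp hp1 x ⟨m, by omega⟩ hx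
      have h2 : SS p n x ((⟨m, by omega⟩ : Fin n) : ℕ) = SS p n x m := rfl
      rw [h2] at h1
      rw [pow_succ]
      nlinarith

theorem pr_le {n : ℕ} {p : ℝ} (hp : 0 < p) (hp1 : p < 1) (x y : Fin n) (hxy : x ≠ y) :
    Pr p n (fun E => gle E x y) ≤ p * (1 + p) ^ n := by
  refine (pr_step hp hp1 x y hxy).trans ?_
  have h1 := SS_le hp hp1 x (y : ℕ) y.2.le
  have h2 : (1 + p) ^ (y : ℕ) ≤ (1 + p) ^ n := pow_le_pow_right₀ (by linarith) y.2.le
  exact mul_le_mul_of_nonneg_left (h1.trans h2) hp.le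

/-- Markov's inequality -/
theorem markov {α : Type} [DecidableEq α] (p : ℝ) (W : Finset α) (hp : 0 < p) (hp1 : p < 1)
    (Z : Finset α → ℝ) (hZ : ∀ E, 0 ≤ Z E) (t : ℝ) (_ht : 0 < t) :
    t * EX p W (fun E => ind (t < Z E)) ≤ EX p W Z := by
  rw [← EX_mul' p W (fun E => ind (t < Z E)) t]
  unfold EX
  refine Finset.sum_le_sum fun E _ => ?_
  have hm : 0 ≤ p ^ E.card * (1 - p) ^ (W.card - E.card) :=
    mul_nonneg (pow_nonneg hp.le _) (pow_nonneg (by linarith) _)
  refine mul_le_mul_of_nonneg_left ?_ hm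
  beta_reduce
  by_cases h : t < Z E
  · rw [ind_pos h, mul_one]
    exact h.le
  · rw [ind_neg h, mul_zero]
    exact hZ E

theorem main : Pool.Agent.H958.RL.S_COMP := by
  intro p n a hp hp1 ha h2a
  obtain ⟨F, hF⟩ : ∃ F : Finset (Fin n × Fin n),
      F = univ.filter (fun q => (q.1 : ℕ) < a ∧ n ≤ (q.2 : ℕ) + a) := ⟨_, rfl⟩
  have hcard : F.card ≤ a ^ 2 := by
    have h1 : F ⊆ (univ.filter (fun w : Fin n => (w : ℕ) < a)) ×ˢ
        (univ.filter (fun w : Fin n => n ≤ (w : ℕ) + a)) := by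
      intro q hq
      rw [hF, mem_filter] at hq
      rw [mem_product, mem_filter, mem_filter]
      exact ⟨⟨mem_univ _, hq.2.1⟩, mem_univ _, hq.2.2⟩
    have h2 : (univ.filter (fun w : Fin n => (w : ℕ) < a)).card ≤ a := by
      have hr : (univ.filter (fun w : Fin n => (w : ℕ) < a)).card ≤ (range a).card := ?_
      · rwa [card_range] at hr
      refine Finset.card_le_card_of_injOn (fun w : Fin n => (w : ℕ)) ?_ ?_
      · intro w hw
        have hw' := (mem_filter.1 (Finset.mem_coe.1 hw)).2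
        exact Finset.mem_coe.2 (mem_range.2 hw')
      · intro w _ w' _ h
        exact Fin.ext h
    have h3 : (univ.filter (fun w : Fin n => n ≤ (w : ℕ) + a)).card ≤ a := by
      have hr : (univ.filter (fun w : Fin n => n ≤ (w : ℕ) + a)).card ≤ (range a).card := ?_
      · rwa [card_range] at hr
      refine Finset.card_le_card_of_injOn (fun w : Fin n => n - 1 - (w : ℕ)) ?_ ?_
      · intro w hw
        have hw' := (mem_filter.1 (Finset.mem_coe.1 hw)).2
        have := w.2
        have h7 : n - 1 - (w : ℕ) < a := by omega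
        exact Finset.mem_coe.2 (mem_range.2 h7)
      · intro w _ w' _ h
        have h4 : n - 1 - (w : ℕ) = n - 1 - (w' : ℕ) := h
        have := w.2
        have := w'.2
        exact Fin.ext (by omega)
    calc F.card ≤ _ := card_le_card h1
      _ = _ := card_product _ _
      _ ≤ a * a := Nat.mul_le_mul h2 h3
      _ = a ^ 2 := by ring
  have hcnt : ∀ E : Finset (Fin n × Fin n),
      ((univ.filter (fun q : Fin n × Fin n =>
        (q.1 : ℕ) < a ∧ n ≤ (q.2 : ℕ) + a ∧ gle E q.1 q.2)).card : ℝ) =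
      ∑ q ∈ F, ind (gle E q.1 q.2) := by
    intro E
    have e1 : univ.filter (fun q : Fin n × Fin n =>
        (q.1 : ℕ) < a ∧ n ≤ (q.2 : ℕ) + a ∧ gle E q.1 q.2) = F.filter (fun q => gle E q.1 q.2) := by
      ext q
      rw [hF]
      simp only [mem_filter, mem_univ, true_and, and_assoc]
    rw [e1, Finset.card_filter]
    push_cast
    refine Finset.sum_congr rfl fun q _ => ?_
    by_cases h : gle E q.1 q.2
    · rw [if_pos h, ind_pos h]
    · rw [if_neg h, ind_neg h]
  have ha2 : (0 : ℝ) < (a : ℝ) ^ 2 / 8 := by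
    have : (1 : ℝ) ≤ a := by exact_mod_cast ha
    positivity
  have hnn : ∀ P : Prop, 0 ≤ ind P := by
    intro P
    by_cases h : P
    · rw [ind_pos h]; norm_num
    · rw [ind_neg h]
  have hM := markov p (Om n) hp hp1 (fun E => ∑ q ∈ F, ind (gle E q.1 q.2))
    (fun E => Finset.sum_nonneg fun q _ => hnn _) _ ha2
  have hEX : EX p (Om n) (fun E => ∑ q ∈ F, ind (gle E q.1 q.2)) ≤
      (a : ℝ) ^ 2 * (p * (1 + p) ^ n) := by
    rw [EX_sum]
    have h1 : ∀ q ∈ F, EX p (Om n) (fun E => ind (gle E q.1 q.2)) ≤ p * (1 + p) ^ n := by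
      intro q hq
      rw [← Pool.Agent.H603.RO.Cheb.Pr_eq p n (fun E => gle E q.1 q.2)]
      apply pr_le hp hp1
      intro h
      rw [hF, mem_filter] at hq
      have h5 := hq.2.1
      have h6 := hq.2.2
      rw [h] at h5
      omega
    refine (Finset.sum_le_card_nsmul _ _ _ h1).trans ?_
    rw [nsmul_eq_mul]
    have h2 : (F.card : ℝ) ≤ (a : ℝ) ^ 2 := by exact_mod_cast hcard
    have h3 : 0 ≤ p * (1 + p) ^ n := by positivity
    exact mul_le_mul_of_nonneg_right h2 h3
  have hPr : Pr p n (fun E => (a : ℝ) ^ 2 / 8 < ((univ.filter (fun q : Fin n × Fin n =>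
      (q.1 : ℕ) < a ∧ n ≤ (q.2 : ℕ) + a ∧ gle E q.1 q.2)).card : ℝ)) =
      EX p (Om n) (fun E => ind ((a : ℝ) ^ 2 / 8 < ∑ q ∈ F, ind (gle E q.1 q.2))) := by
    rw [Pool.Agent.H603.RO.Cheb.Pr_eq]
    refine EX_congr p (Om n) _ _ fun E _ => ?_
    rw [hcnt]
  rw [hPr]
  have hfin := hM.trans hEX
  have e3 : (a : ℝ) ^ 2 * (p * (1 + p) ^ n) = (a : ℝ) ^ 2 / 8 * (8 * p * (1 + p) ^ n) := by ring
  rw [e3] at hfin
  exact le_of_mul_le_mul_left hfin ha2

end

end Pool.Agent.H695.RL.Comp
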